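import Mathlib
import Pool.Agent.H381R4.BP.Final

/-!
# BP task FIN2: the exact constant of the volume difference inequality (helper666)
-/

set_option autoImplicit false
open MeasureTheory Metric

namespace Pool.Agent.H666BP
open Pool.Agent.H381BP.Fin

/-- an isometry of the model space onto a subspace of dimension `m` -/
lemma exists_iso {n m : ℕ} (F : Submodule ℝ (EuclideanSpace ℝ (Fin n)))
    (hF : Module.finrank ℝ F = m) : Nonempty (F ≃ₗᵢ[ℝ] EuclideanSpace ℝ (Fin m)) :=
  ⟨((stdOrthonormalBasis ℝ F).reindex (finCongr hF)).repr⟩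

/-- the section of a ball -/
lemma vol_sec_ball {n m : ℕ} (F : Submodule ℝ (EuclideanSpace ℝ (Fin n)))
    (hF : Module.finrank ℝ F = m) (r : ℝ) :
    volume {w : F | (w : EuclideanSpace ℝ (Fin n)) ∈ closedBall (0 : EuclideanSpace ℝ (Fin n)) r} =
      volume (closedBall (0 : EuclideanSpace ℝ (Fin m)) r) := by
  obtain ⟨φ⟩ := exists_iso F hF
  have h1 : {w : F | (w : EuclideanSpace ℝ (Fin n)) ∈
      closedBall (0 : EuclideanSpace ℝ (Fin n)) r} =
      φ ⁻¹' (closedBall (0 : EuclideanSpace ℝ (Fin m)) r) := by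
    ext w
    simp only [Set.mem_ofPred_eq, mem_closedBall, dist_zero_right, Set.mem_preimage,
      LinearIsometryEquiv.norm_map]
    rfl
  rw [h1]
  exact φ.measurePreserving.measure_preimage measurableSet_closedBall.nullMeasurableSet

lemma secVol_ball {n m : ℕ} (F : Submodule ℝ (EuclideanSpace ℝ (Fin n)))
    (hF : Module.finrank ℝ F = m) (r : ℝ) :
    secVol (closedBall (0 : EuclideanSpace ℝ (Fin n)) r) F =
      vol (closedBall (0 : EuclideanSpace ℝ (Fin m)) r) := by
  unfold secVol vol
  rw [vol_sec_ball F hF r]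

/-- sections of bounded sets have finite volume -/
lemma sec_finite {n : ℕ} {A : Set (EuclideanSpace ℝ (Fin n))} {R : ℝ}
    (hA : A ⊆ closedBall 0 R) (F : Submodule ℝ (EuclideanSpace ℝ (Fin n))) :
    volume {w : F | (w : EuclideanSpace ℝ (Fin n)) ∈ A} ≠ ⊤ := by
  have h1 : volume {w : F | (w : EuclideanSpace ℝ (Fin n)) ∈
      closedBall (0 : EuclideanSpace ℝ (Fin n)) R} ≠ ⊤ := by
    rw [vol_sec_ball F rfl R]
    exact measure_closedBall_lt_top.ne
  exact ne_top_of_le_ne_top h1 (measure_mono (fun w hw => hA hw))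

lemma secVol_mono {n : ℕ} {A B : Set (EuclideanSpace ℝ (Fin n))} {R : ℝ} (hAB : A ⊆ B)
    (hB : B ⊆ closedBall 0 R) (F : Submodule ℝ (EuclideanSpace ℝ (Fin n))) :
    secVol A F ≤ secVol B F :=
  ENNReal.toReal_mono (sec_finite hB F) (measure_mono (fun _ hw => hAB hw))

lemma secVol_le {n m : ℕ} {A : Set (EuclideanSpace ℝ (Fin n))} {R : ℝ}
    (hA : A ⊆ closedBall 0 R) (F : Submodule ℝ (EuclideanSpace ℝ (Fin n)))
    (hF : Module.finrank ℝ F = m) :
    secVol A F ≤ vol (closedBall (0 : EuclideanSpace ℝ (Fin m)) R) := by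
  rw [← secVol_ball F hF R]
  exact secVol_mono hA subset_rfl F

lemma exists_sub {n m : ℕ} (h : m ≤ n) :
    ∃ F : Submodule ℝ (EuclideanSpace ℝ (Fin n)), Module.finrank ℝ F = m := by
  have hli : LinearIndependent ℝ (fun i : Fin m =>
      (EuclideanSpace.basisFun (Fin n) ℝ).toBasis (Fin.castLE h i)) :=
    (EuclideanSpace.basisFun (Fin n) ℝ).toBasis.linearIndependent.comp _
      (Fin.castLE_injective h)
  exact ⟨_, (finrank_span_eq_card hli).trans (Fintype.card_fin m)⟩

/-- the volume of a ball -/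
lemma vol_ball (n : ℕ) {r : ℝ} (hr : 0 ≤ r) :
    vol (closedBall (0 : EuclideanSpace ℝ (Fin n)) r) = r ^ n * ballVol n := by
  unfold ballVol vol
  rw [Measure.addHaar_closedBall _ _ hr, Measure.addHaar_closedBall _ _ zero_le_one,
    finrank_euclideanSpace_fin]
  simp only [one_pow, ENNReal.ofReal_one, one_mul, ENNReal.toReal_mul]
  rw [ENNReal.toReal_ofReal (pow_nonneg hr n)]

lemma ballVol_pos (n : ℕ) : 0 < ballVol n := by
  unfold ballVol vol
  refine ENNReal.toReal_pos ?_ measure_closedBall_lt_top.ne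
  exact (measure_closedBall_pos volume _ one_pos).ne'

lemma symBody_ball (n : ℕ) {r : ℝ} (hr : 0 < r) :
    SymBody (closedBall (0 : EuclideanSpace ℝ (Fin n)) r) := by
  refine ⟨isCompact_closedBall _ _, convex_closedBall _ _, ?_, ?_⟩
  · exact ⟨0, ball_subset_interior_closedBall (mem_ball_self hr)⟩
  · intro x hx
    simpa using hx

lemma zero_mem_interior {n : ℕ} {K : Set (EuclideanSpace ℝ (Fin n))} (hK : SymBody K) :
    (0 : EuclideanSpace ℝ (Fin n)) ∈ interior K := by
  obtain ⟨hc, hconv, ⟨x, hx⟩, hs⟩ := hK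
  have hneg : -x ∈ interior K := by
    have h1 : -K = K := by
      ext y
      constructor
      · intro hy
        have := hs _ (Set.mem_neg.1 hy)
        simpa using this
      · intro hy
        exact Set.mem_neg.2 (hs y hy)
    have h2 : -x ∈ -interior K := by simpa using hx
    have h3 : -interior K = interior K := by
      have := (Homeomorph.neg (EuclideanSpace ℝ (Fin n))).preimage_interior K
      have h4 : (Homeomorph.neg (EuclideanSpace ℝ (Fin n))) ⁻¹' (interior K) = -interior K := rfl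
      have h5 : (Homeomorph.neg (EuclideanSpace ℝ (Fin n))) ⁻¹' K = -K := rfl
      rw [h4, h5, h1] at this
      exact this
    rwa [h3] at h2
  have := hconv.interior hx hneg (by norm_num : (0 : ℝ) ≤ 1 / 2) (by norm_num : (0 : ℝ) ≤ 1 / 2)
    (by norm_num)
  simpa using this

theorem T_FIN2 : S_FIN1 → S_FIN2 := by
  intro h1 n m hm1 hm3 hmn
  have hn0 : (0 : ℝ) < n := by exact_mod_cast (lt_of_le_of_lt (Nat.zero_le _) hmn)
  have hne : Nonempty {F : Submodule ℝ (EuclideanSpace ℝ (Fin n)) // Module.finrank ℝ F = m} := by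
    obtain ⟨F, hF⟩ := exists_sub hmn.le
    exact ⟨⟨F, hF⟩⟩
  constructor
  · intro K L hK hL hLK
    obtain ⟨R, hR⟩ := hK.1.isBounded.subset_closedBall (0 : EuclideanSpace ℝ (Fin n))
    have hbdd : BddAbove (Set.range
        (fun F : {F : Submodule ℝ (EuclideanSpace ℝ (Fin n)) // Module.finrank ℝ F = m} =>
          secVol K F.1 - secVol L F.1)) := by
      refine ⟨vol (closedBall (0 : EuclideanSpace ℝ (Fin m)) R), ?_⟩
      rintro _ ⟨F, rfl⟩
      have h2 := secVol_le hR F.1 F.2
      have h3 : 0 ≤ secVol L F.1 := ENNReal.toReal_nonneg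
      simp only
      linarith
    set s : ℝ := ⨆ F : {F : Submodule ℝ (EuclideanSpace ℝ (Fin n)) // Module.finrank ℝ F = m},
      (secVol K F.1 - secVol L F.1) with hs
    have hle : ∀ F : {F : Submodule ℝ (EuclideanSpace ℝ (Fin n)) // Module.finrank ℝ F = m},
        secVol K F.1 - secVol L F.1 ≤ s := fun F => le_ciSup hbdd F
    have hs0 : 0 ≤ s := by
      obtain ⟨F⟩ := hne
      have := hle F
      have h2 := secVol_mono hLK hR F.1
      linarith
    have := h1 n m hm1 hm3 hmn K L hK hL.1.measurableSet hL.1.isBounded (zero_mem_interior hL) s hs0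
      (fun F hF => by have := hle ⟨F, hF⟩; simp only at this; linarith)
    linarith
  · intro c hc
    have hK : SymBody (closedBall (0 : EuclideanSpace ℝ (Fin n)) 1) := symBody_ball n one_pos
    have hL : SymBody (closedBall (0 : EuclideanSpace ℝ (Fin n)) (1 / 2)) :=
      symBody_ball n (by norm_num)
    have hLK : closedBall (0 : EuclideanSpace ℝ (Fin n)) (1 / 2) ⊆
        closedBall (0 : EuclideanSpace ℝ (Fin n)) 1 := closedBall_subset_closedBall (by norm_num)
    have := hc _ _ hK hL hLK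
    have hsup : (⨆ F : {F : Submodule ℝ (EuclideanSpace ℝ (Fin n)) // Module.finrank ℝ F = m},
        (secVol (closedBall (0 : EuclideanSpace ℝ (Fin n)) 1) F.1 -
          secVol (closedBall (0 : EuclideanSpace ℝ (Fin n)) (1 / 2)) F.1)) =
        ballVol m * (1 - (1 / 2) ^ m) := by
      have : ∀ F : {F : Submodule ℝ (EuclideanSpace ℝ (Fin n)) // Module.finrank ℝ F = m},
        (secVol (closedBall (0 : EuclideanSpace ℝ (Fin n)) 1) F.1 -
          secVol (closedBall (0 : EuclideanSpace ℝ (Fin n)) (1 / 2)) F.1) =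
        ballVol m * (1 - (1 / 2) ^ m) := by
        intro F
        rw [secVol_ball F.1 F.2, secVol_ball F.1 F.2, vol_ball m zero_le_one,
          vol_ball m (by norm_num : (0 : ℝ) ≤ 1 / 2)]
        ring
      rw [iSup_congr this, ciSup_const]
    rw [hsup, vol_ball n zero_le_one, vol_ball n (by norm_num : (0 : ℝ) ≤ 1 / 2)] at this
    have hvm := ballVol_pos m
    have hvn := ballVol_pos n
    have h2 : ((1 / 2 : ℝ) ^ n * ballVol n) ^ ((m : ℝ) / n) =
        (1 / 2) ^ m * ballVol n ^ ((m : ℝ) / n) := by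
      rw [Real.mul_rpow (by positivity) hvn.le, ← Real.rpow_natCast, ← Real.rpow_mul (by norm_num)]
      congr 1
      rw [mul_div_cancel₀ _ hn0.ne', Real.rpow_natCast]
    rw [h2, one_pow, one_mul] at this
    have h3 : (1 / 2 : ℝ) ^ m < 1 := pow_lt_one₀ (by norm_num) (by norm_num) (by omega)
    rw [div_le_iff₀ hvm]
    have h4 : (0 : ℝ) < 1 - (1 / 2) ^ m := by linarith
    nlinarith [this, h4]

end Pool.Agent.H666BP
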